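import Mathlib
import Pool.Agent.Q96.PExtThree

/-!
# `lim_{p → 0} ae_p(n) = ∞` for every `n ≥ 3`
-/

set_option autoImplicit false

open Filter Topology Set
open scoped ENNReal

namespace Pool.Agent.Results.MP_4d6431_an.ConstantsBlowUp

open Q96.PExt

/-- the absolute `p`-extendability constant of metric spaces with at most `n` points -/
noncomputable def aextN (p : ℝ) (n : ℕ) : ℝ≥0∞ :=
  ⨆ (N : Type) (_ : MetricSpace N) (_ : Nonempty N) (_ : Finite N) (_ : Nat.card N ≤ n), aext p N

/-- **Q1, positive answer.** -/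
theorem result (n : ℕ) (hn : 3 ≤ n) :
    Tendsto (fun p : ℝ => aextN p n) (𝓝[>] 0) (𝓝 ∞) := by
  refine tendsto_nhds_top_mono (aext_three 1 le_rfl) (Eventually.of_forall fun p => ?_)
  unfold aextN
  have hfin : Finite (three 1) := by
    unfold three
    infer_instance
  have hcard : Nat.card (three 1) ≤ n := by
    refine le_trans ?_ hn
    rw [Nat.card_coe_set_eq]
    unfold three
    refine le_trans (Set.ncard_insert_le _ _) ?_
    have := Set.ncard_insert_le ((1, 0) : ℝ × ℝ) {((1 / 2, 1) : ℝ × ℝ)}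
    rw [Set.ncard_singleton] at this
    omega
  exact le_iSup_of_le (three 1) (le_iSup_of_le inferInstance
    (le_iSup_of_le ⟨⟨(0, 0), by simp [three]⟩⟩ (le_iSup_of_le hfin (le_iSup_of_le hcard le_rfl))))

end Pool.Agent.Results.MP_4d6431_an.ConstantsBlowUp
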