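import Mathlib
import Pool.Agent.Q96.PExtThree

/-!
# `S(n, m) = m + 1` for all `n ≥ 3`

The `m` new points are placed on a segment between two of three points.
-/

set_option autoImplicit false

open Filter Topology Set
open scoped ENNReal

namespace Pool.Agent.Results.MP_4d6431_an.ExactLimitValue

open Q96.PExt

/-- `S(n, m)`: the supremum of the limits `lim_{p → 0} t_p(N, M)` over all `N ⊆ M` with at most
`n` points in `N` and at most `m` points in `M` outside `N` -/
noncomputable def S (n m : ℕ) : ℝ≥0∞ :=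
  sSup {L : ℝ≥0∞ | ∃ (M : Type) (_ : MetricSpace M) (N : Set M), N.Nonempty ∧
    N.Finite ∧ N.ncard ≤ n ∧ Nᶜ.Finite ∧ Nᶜ.ncard ≤ m ∧
    Tendsto (fun p : ℝ => trace p N) (𝓝[>] 0) (𝓝 L)}

/-- the points of the example -/
def pts (n : ℕ) : Set (ℝ × ℝ) := (fun i : ℕ => (((i : ℝ) / n, 0) : ℝ × ℝ)) '' Set.Iic n ∪
  {(1 / 2, 1)}

/-- **Q2, positive answer** (for all `m`, in particular for all `m ≥ 2`). -/
theorem result (n m : ℕ) (hn : 3 ≤ n) : S n m = (m : ℝ≥0∞) + 1 := by
  classical
  apply le_antisymm
  · apply sSup_le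
    rintro L ⟨M, _, N, hN, hNf, hNn, hNcf, hNm, hL⟩
    have hfin : Finite M := by
      have : (Set.univ : Set M).Finite := by
        rw [← Set.union_compl_self N]; exact hNf.union hNcf
      exact Set.finite_univ_iff.mp this
    apply le_of_tendsto' hL
    intro p
    refine le_trans (trace_le p N hN) ?_
    gcongr
  · apply le_sSup
    set k := m + 1 with hk
    have hk0 : 0 < k := by omega
    have hk0' : (0 : ℝ) < k := by exact_mod_cast hk0
    have hin : ∀ i : ℕ, i ≤ k → (0 : ℝ) ≤ i / k ∧ (i : ℝ) / k ≤ 1 := by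
      intro i hi
      refine ⟨by positivity, ?_⟩
      rw [div_le_one hk0']; exact_mod_cast hi
    have hmem : ∀ i : ℕ, i ≤ k → (((i : ℝ) / k, 0) : ℝ × ℝ) ∈ pts k :=
      fun i hi => Or.inl ⟨i, hi, rfl⟩
    have hfin : (pts k).Finite := ((Set.finite_Iic k).image _).union (Set.finite_singleton _)
    set y : ℕ → pts k := fun i => ⟨(((min i k : ℕ) : ℝ) / k, 0), hmem _ (min_le_right _ _)⟩ with hy
    have hyi : ∀ i ≤ k, (y i : ℝ × ℝ) = ((i : ℝ) / k, 0) := by
      intro i hi
      change (((min i k : ℕ) : ℝ) / k, (0 : ℝ)) = _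
      rw [min_eq_left hi]
    set x : pts k := ⟨(1 / 2, 1), Or.inr rfl⟩ with hx
    have hdx : ∀ i ≤ k, dist (y i) x = 1 := by
      intro i hi
      rw [Subtype.dist_eq, hyi i hi]
      exact dist_line _ 1 le_rfl (hin i hi).1 (hin i hi).2
    have hdd : ∀ i ≤ k, ∀ j ≤ k, dist (y i) (y j) = |(i : ℝ) / k - j / k| := by
      intro i hi j hj
      rw [Subtype.dist_eq, hyi i hi, hyi j hj, dist_line_line]
    have hd1 : ∀ i ≤ k, ∀ j ≤ k, dist (y i) (y j) ≤ 1 := by
      intro i hi j hj
      rw [hdd i hi j hj]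
      exact abs_le_one_of _ _ (hin i hi).1 (hin i hi).2 (hin j hj).1 (hin j hj).2
    have hfinN : Finite (pts k) := hfin
    set N : Set (pts k) := {y 0, y k, x} with hN
    have hNc : Nᶜ ⊆ y '' Set.Ioo 0 k := by
      rintro ⟨z, hz⟩ hzN
      rcases hz with ⟨i, hi, rfl⟩ | hz
      · have hi' : i ≤ k := hi
        have e : (⟨((i : ℝ) / k, 0), Or.inl ⟨i, hi, rfl⟩⟩ : pts k) = y i := by
          apply Subtype.ext; rw [hyi i hi']
        simp only at hzN
        rw [e] at hzN ⊢
        refine ⟨i, ⟨?_, ?_⟩, rfl⟩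
        · rcases Nat.eq_zero_or_pos i with h | h
          · subst h; exact absurd (by rw [hN]; simp) hzN
          · exact h
        · rcases Nat.lt_or_ge i k with h | h
          · exact h
          · have : i = k := le_antisymm hi' h
            subst this; exact absurd (by rw [hN]; simp) hzN
      · exfalso
        apply hzN
        rw [hN]
        right; right
        apply Subtype.ext
        exact hz
    have hNcard : Nᶜ.ncard ≤ m := by
      refine le_trans (Set.ncard_le_ncard hNc ((Set.finite_Ioo 0 k).image _)) ?_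
      refine le_trans (Set.ncard_image_le (Set.finite_Ioo 0 k)) ?_
      rw [Set.ncard_eq_toFinset_card', Set.toFinset_Ioo, Nat.card_Ioo]
      omega
    have hN3 : N.ncard ≤ n := by
      refine le_trans ?_ hn
      rw [hN]
      refine le_trans (Set.ncard_insert_le _ _) ?_
      have := Set.ncard_insert_le (y k) {x}
      rw [Set.ncard_singleton] at this
      omega
    refine ⟨pts k, inferInstance, N, ⟨x, by rw [hN]; simp⟩, Set.toFinite _, hN3, Set.toFinite _,
      hNcard, ?_⟩
    have hup : ∀ p : ℝ, trace p N ≤ (m : ℝ≥0∞) + 1 := by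
      intro p
      refine le_trans (trace_le p N ⟨x, by rw [hN]; simp⟩) ?_
      gcongr
    rw [tendsto_order]
    constructor
    · intro c hc
      have hctop : c ≠ ∞ := ne_top_of_lt hc
      obtain ⟨c', hcc', hc'⟩ := exists_between hc
      have hc't : c' ≠ ∞ := ne_top_of_lt hc'
      have hc'0 : 0 < c'.toReal :=
        ENNReal.toReal_pos (lt_of_le_of_lt zero_le hcc').ne' hc't
      have hc'k : c'.toReal < k := by
        have h1 : c'.toReal < ((m : ℝ≥0∞) + 1).toReal := by
          apply (ENNReal.toReal_lt_toReal hc't (by finiteness)).mpr hc'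
        rw [ENNReal.toReal_add (by finiteness) (by finiteness)] at h1
        simp only [ENNReal.toReal_natCast, ENNReal.toReal_one] at h1
        rw [hk]; push_cast; exact h1
      have h := trace_lower (y 0) (y k) x
        (by rw [hdd 0 (by omega) k le_rfl]; simp [hk0'.ne'])
        (by rw [hdx 0 (by omega)]) (by rw [hdx k le_rfl]) k hk0 y rfl rfl ?_ 1 ?_ ?_ ?_
        c'.toReal hc'0 hc'k
      · filter_upwards [h] with p hp
        rw [ENNReal.ofReal_toReal hc't] at hp
        exact lt_of_lt_of_le hcc' hp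
      · intro i hi
        rw [hdd i (by omega) (i + 1) (by omega)]
        push_cast
        have : (i : ℝ) / k - (i + 1) / k = -(1 / k) := by ring
        rw [this, abs_neg, abs_of_pos (by positivity)]
      · intro i hi; exact hd1 i hi 0 (by omega)
      · intro i hi; exact hd1 i hi k le_rfl
      · intro i hi; rw [hdx i hi]
    · intro c hc
      exact Eventually.of_forall fun p => lt_of_le_of_lt (hup p) hc

end Pool.Agent.Results.MP_4d6431_an.ExactLimitValue
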